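import Pool.Agent.Helper6.CX.Goals

/-! Packet CX-NUM (MP_75608d_al, helper6). -/

namespace Pool.Agent.Helper58.CX

open Filter Topology

/-- `N log N - N ≤ log N!` -/
theorem log_fact_lower (N : ℕ) (hN : 1 ≤ N) :
    (N : ℝ) * Real.log N - N ≤ Real.log (N.factorial : ℝ) := by
  have h := Real.pow_div_factorial_le_exp (N : ℝ) (Nat.cast_nonneg N) N
  have hN0 : (0 : ℝ) < N := by exact_mod_cast hN
  have hf : (0 : ℝ) < N.factorial := by exact_mod_cast N.factorial_pos
  have h2 : (N : ℝ) ^ N ≤ Real.exp N * N.factorial := by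
    rwa [div_le_iff₀ hf] at h
  have h3 := Real.log_le_log (by positivity) h2
  rw [Real.log_pow, Real.log_mul (Real.exp_pos _).ne' hf.ne', Real.log_exp] at h3
  linarith

theorem log_fact_upper (n : ℕ) (hn : 1 ≤ n) :
    Real.log (n.factorial : ℝ) ≤ (n : ℝ) * Real.log n := by
  have hn0 : (0 : ℝ) < n := by exact_mod_cast hn
  have hf : (0 : ℝ) < n.factorial := by exact_mod_cast n.factorial_pos
  have h : (n.factorial : ℝ) ≤ (n : ℝ) ^ n := by exact_mod_cast n.factorial_le_pow
  have h3 := Real.log_le_log hf h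
  rwa [Real.log_pow] at h3

/-- the real inequality -/
theorem real_ineq (δ a D E F K s L n N lN : ℝ) (hδ : 0 < δ) (ha : 0 ≤ a) (hD : 1 ≤ D)
    (hE : 1 ≤ E) (hF : 0 ≤ F) (had : a * 2 = D - 19) (hDδ : 19 / D ≤ δ / 4)
    (hEδ : 1 / E ≤ δ / 4) (hK : K = a * (10 + 2 * E + Real.log D + 1 + F)) (hs : 1 ≤ s)
    (hL : 1 ≤ L) (hns : n = s ^ 2) (hsK : 4 * K / δ ≤ s) (hLK : 4 * K / δ ≤ L)
    (hN1 : 2 / D * n - (8 * s + 2 * E + 2) ≤ N) (hN2 : N ≤ n)
    (hN3 : 8 * s + 2 * E + 2 ≤ 1 / D * n) (hlN : L - Real.log D ≤ lN) (hLD : Real.log D ≤ L) :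
    (1 - δ / 2) * (n * L) - δ / 2 * (n * L) ≤ a * ((1 - 1 / E) * (N * lN) - N - F) := by
  have hD0 : 0 < D := by linarith
  have hE0 : 0 < E := by linarith
  have hlD : 0 ≤ Real.log D := Real.log_nonneg hD
  have hn0 : 0 < n := by rw [hns]; positivity
  set R := 8 * s + 2 * E + 2 with hR
  have hR0 : 0 ≤ R := by positivity
  have hRs : R ≤ (10 + 2 * E) * s := by rw [hR]; nlinarith
  have hmain : 0 ≤ 2 / D * n - R := by
    have : 2 / D * n = 1 / D * n + 1 / D * n := by ring
    rw [this]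
    linarith
  have hNl : 2 / D * (n * L) - R * L - n * 2 / D * Real.log D ≤ N * lN := by
    have h1 : (2 / D * n - R) * (L - Real.log D) ≤ N * lN := by
      apply mul_le_mul hN1 hlN (by linarith) (by linarith)
    have h2 : (2 / D * n - R) * (L - Real.log D) =
        2 / D * (n * L) - R * L - n * 2 / D * Real.log D + R * Real.log D := by ring
    nlinarith [mul_nonneg hR0 hlD]
  have hE1 : 0 ≤ 1 - 1 / E := by
    have : 1 / E ≤ 1 := by rw [div_le_one hE0]; exact hE
    linarith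
  have hE2 : 1 - 1 / E ≤ 1 := by
    have : 0 ≤ 1 / E := by positivity
    linarith
  have haD : a * (n * 2 / D * Real.log D) ≤ a * (n * Real.log D) := by
    apply mul_le_mul_of_nonneg_left _ ha
    apply mul_le_mul_of_nonneg_right _ hlD
    rw [div_le_iff₀ hD0]
    nlinarith
  have h3 : (1 - 1 / E) * (2 / D * (n * L)) - (R * L + n * 2 / D * Real.log D) ≤
      (1 - 1 / E) * (N * lN) := by
    have h4 := mul_le_mul_of_nonneg_left hNl hE1
    have h5 : 0 ≤ R * L + n * 2 / D * Real.log D := by positivity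
    nlinarith
  have h6 : a * ((1 - 1 / E) * (2 / D * (n * L))) = (1 - 19 / D) * (1 - 1 / E) * (n * L) := by
    have : a * 2 / D = 1 - 19 / D := by
      rw [had, sub_div, div_self hD0.ne']
    calc _ = (a * 2 / D) * (1 - 1 / E) * (n * L) := by ring
      _ = _ := by rw [this]
  have hnL : 0 ≤ n * L := by positivity
  have h7 : (1 - δ / 2) * (n * L) ≤ (1 - 19 / D) * (1 - 1 / E) * (n * L) := by
    apply mul_le_mul_of_nonneg_right _ hnL
    have h8 : 0 ≤ 19 / D * (1 / E) := by positivity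
    nlinarith
  -- errors
  have hK0 : 0 ≤ K := by rw [hK]; positivity
  have e1 : K * (s * L) ≤ δ / 4 * (n * L) := by
    have : 4 * K ≤ s * δ := by rwa [div_le_iff₀ hδ] at hsK
    rw [hns]
    have hsL : 0 ≤ s * L := by positivity
    nlinarith [mul_le_mul_of_nonneg_right this hsL]
  have e2 : K * n ≤ δ / 4 * (n * L) := by
    have : 4 * K ≤ L * δ := by rwa [div_le_iff₀ hδ] at hLK
    nlinarith [mul_le_mul_of_nonneg_right this hn0.le]
  have hn1 : 1 ≤ n := by rw [hns]; nlinarith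
  have hsL : 0 ≤ s * L := by positivity
  have e3 : a * (R * L + n * Real.log D + n + F) ≤ K * (s * L) + K * n := by
    have g1 : R * L ≤ (10 + 2 * E) * (s * L) := by
      have := mul_le_mul_of_nonneg_right hRs (show 0 ≤ L by linarith)
      nlinarith
    have g2 : F ≤ F * n := by nlinarith
    have g3 : R * L + n * Real.log D + n + F ≤
        (10 + 2 * E + Real.log D + 1 + F) * (s * L) + (10 + 2 * E + Real.log D + 1 + F) * n := by
      have g4 : 0 ≤ (Real.log D + 1 + F) * (s * L) := by positivity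
      have g5 : 0 ≤ (10 + 2 * E) * n := by positivity
      nlinarith
    calc a * (R * L + n * Real.log D + n + F) ≤ a * ((10 + 2 * E + Real.log D + 1 + F) * (s * L) +
          (10 + 2 * E + Real.log D + 1 + F) * n) := mul_le_mul_of_nonneg_left g3 ha
      _ = K * (s * L) + K * n := by rw [hK]; ring
  have h9 : a * ((1 - 1 / E) * (2 / D * (n * L)) - (R * L + n * 2 / D * Real.log D) - n - F) ≤
      a * ((1 - 1 / E) * (N * lN) - N - F) := by
    apply mul_le_mul_of_nonneg_left _ ha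
    linarith
  have h10 : a * ((1 - 1 / E) * (2 / D * (n * L)) - (R * L + n * 2 / D * Real.log D) - n - F) =
      a * ((1 - 1 / E) * (2 / D * (n * L))) - a * (n * 2 / D * Real.log D) -
        a * (R * L + n + F) := by ring
  have h11 : a * (R * L + n * Real.log D + n + F) = a * (R * L + n + F) + a * (n * Real.log D) := by
    ring
  rw [h10, h6] at h9
  linarith

theorem thm (hcnt : Pool.Agent.Helper6.CX.S_CNT) : Pool.Agent.Helper6.CX.S_NUM := by
  intro δ hδ hδ1
  obtain ⟨m, hm⟩ : ∃ m : ℕ, 76 / δ + 10 ≤ (m : ℝ) := ⟨_, Nat.le_ceil _⟩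
  obtain ⟨e, he⟩ : ∃ e : ℕ, 4 / δ + 4 ^ 18 ≤ (e : ℝ) := ⟨_, Nat.le_ceil _⟩
  have hδ4 : 0 < 4 / δ := by positivity
  have hm10 : 10 ≤ m := by
    have : (10 : ℝ) ≤ m := by
      have : 0 < 76 / δ := by positivity
      linarith
    exact_mod_cast this
  set E : ℕ := 2 * e + 1 with hEdef
  have heR : (4 : ℝ) ^ 18 ≤ e := by linarith
  have heN : 4 ^ 18 ≤ e := by exact_mod_cast heR
  refine ⟨m, E, hm10, ⟨e, rfl⟩, by omega, ?_⟩
  set D : ℝ := 2 * m + 1 with hD
  set F : ℝ := Real.log (E.factorial : ℝ) with hF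
  set a : ℝ := (m : ℝ) - 9 with ha
  set K : ℝ := a * (10 + 2 * E + Real.log D + 1 + F) with hK
  have hsq : Tendsto (fun n : ℕ => Real.sqrt (n : ℝ)) atTop atTop :=
    Real.tendsto_sqrt_atTop.comp tendsto_natCast_atTop_atTop
  have hlg : Tendsto (fun n : ℕ => Real.log (n : ℝ)) atTop atTop :=
    Real.tendsto_log_atTop.comp tendsto_natCast_atTop_atTop
  filter_upwards [hsq.eventually_ge_atTop (max (max 1 (4 * K / δ)) (D * (10 + 2 * E))),
    hlg.eventually_ge_atTop (max (max 1 (4 * K / δ)) (Real.log D)), eventually_ge_atTop 1]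
    with n hns hnl hn1 N N₀ β hN hβ hDN hnD
  have hmR : (10 : ℝ) ≤ m := by exact_mod_cast hm10
  have hD0 : 0 < D := by rw [hD]; positivity
  have hD1 : 1 ≤ D := by rw [hD]; linarith
  set s : ℝ := Real.sqrt n with hsdef
  set L : ℝ := Real.log n with hLdef
  have hs1 : 1 ≤ s := le_trans (le_trans (le_max_left _ _) (le_max_left _ _)) hns
  have hsK : 4 * K / δ ≤ s := le_trans (le_trans (le_max_right _ _) (le_max_left _ _)) hns
  have hsD : D * (10 + 2 * E) ≤ s := le_trans (le_max_right _ _) hns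
  have hL1 : 1 ≤ L := le_trans (le_trans (le_max_left _ _) (le_max_left _ _)) hnl
  have hLK : 4 * K / δ ≤ L := le_trans (le_trans (le_max_right _ _) (le_max_left _ _)) hnl
  have hLD : Real.log D ≤ L := le_trans (le_max_right _ _) hnl
  have hnR : (n : ℝ) = s ^ 2 := (Real.sq_sqrt (Nat.cast_nonneg n)).symm
  have hn0 : (0 : ℝ) < n := by exact_mod_cast hn1
  have hER : (1 : ℝ) ≤ E := by
    have : 1 ≤ E := by omega
    exact_mod_cast this
  have hE0 : (0 : ℝ) < E := by linarith
  -- bound of beta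
  have hβs : (β : ℝ) ≤ 4 * s := by
    have h1 : (β : ℝ) * β ≤ 16 * n := by exact_mod_cast hβ
    have h2 : (β : ℝ) ^ 2 ≤ (4 * s) ^ 2 := by
      rw [mul_pow, ← hnR]; linarith
    exact (sq_le_sq₀ (Nat.cast_nonneg β) (by positivity)).mp h2
  have hN1 : 2 / D * n - (8 * s + 2 * E + 2) ≤ (N : ℝ) := by
    have h1 : (n : ℝ) ≤ D * (N₀ + β + E + 1) := by
      have : (n : ℝ) ≤ (2 * m + 1) * (N₀ + β + E + 1) := by exact_mod_cast hnD
      rw [hD]; exact this
    have h2 : 2 / D * n ≤ 2 * (N₀ + β + E + 1) := by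
      rw [div_mul_eq_mul_div, div_le_iff₀ hD0]
      linarith
    have h3 : (N : ℝ) = 2 * N₀ := by rw [hN]; push_cast; ring
    rw [h3]; linarith
  have hN2 : (N : ℝ) ≤ n := by
    have h1 : (D : ℝ) * N₀ ≤ n := by
      have : ((2 * m + 1 : ℕ) : ℝ) * N₀ ≤ n := by exact_mod_cast hDN
      rw [hD]; push_cast at this; exact this
    have h3 : (N : ℝ) = 2 * N₀ := by rw [hN]; push_cast; ring
    rw [h3]
    have h4 : (0 : ℝ) ≤ N₀ := Nat.cast_nonneg _
    nlinarith
  have hN3 : 8 * s + 2 * E + 2 ≤ 1 / D * n := by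
    have h1 : 8 * s + 2 * E + 2 ≤ (10 + 2 * E) * s := by nlinarith
    have h2 : (10 + 2 * (E : ℝ)) * s ≤ 1 / D * n := by
      rw [one_div_mul_eq_div, le_div_iff₀ hD0, hnR]
      nlinarith
    linarith
  have hNn : 1 / D * n ≤ (N : ℝ) := by
    have : 2 / D * (n : ℝ) = 1 / D * n + 1 / D * n := by ring
    linarith
  have hNpos : (0 : ℝ) < N := lt_of_lt_of_le (by positivity) hNn
  have hN1' : 1 ≤ N := by exact_mod_cast hNpos
  have hlN : L - Real.log D ≤ Real.log N := by
    rw [hLdef, ← Real.log_div hn0.ne' hD0.ne']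
    apply Real.log_le_log (by positivity)
    rw [one_div_mul_eq_div] at hNn
    exact hNn
  have hlN0 : 0 ≤ Real.log N := Real.log_nonneg (by exact_mod_cast hN1')
  -- the count
  set c : ℝ := (Nat.card {f : Equiv.Perm (Fin N) // f ^ E = 1} : ℝ) with hc
  have hcn := hcnt E N (by omega)
  have hNf : (0 : ℝ) < N.factorial := by exact_mod_cast N.factorial_pos
  have hEf : (0 : ℝ) < E.factorial := by exact_mod_cast E.factorial_pos
  have hF0 : 0 ≤ F := Real.log_nonneg (by exact_mod_cast E.factorial_pos)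
  have hc0 : 0 < c := by
    rcases (Nat.cast_nonneg (α := ℝ) (Nat.card {f : Equiv.Perm (Fin N) // f ^ E = 1})).lt_or_eq with h | h
    · exact h
    · rw [← h, mul_zero] at hcn
      linarith
  have hlogc : Real.log (N.factorial : ℝ) ≤ F + (N / E) * Real.log N + Real.log c := by
    have h1 := Real.log_le_log hNf hcn
    rw [Real.log_mul (by positivity) hc0.ne', Real.log_mul hEf.ne' (by positivity),
      Real.log_pow] at h1
    have h2 : ((N / E : ℕ) : ℝ) ≤ (N : ℝ) / E := Nat.cast_div_le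
    have h3 := mul_le_mul_of_nonneg_right h2 hlN0
    linarith
  have hlow := log_fact_lower N hN1'
  have hT : (1 - 1 / (E : ℝ)) * ((N : ℝ) * Real.log N) - N - F ≤ Real.log c := by
    have : (1 - 1 / (E : ℝ)) * ((N : ℝ) * Real.log N) =
        (N : ℝ) * Real.log N - (N / E) * Real.log N := by ring
    rw [this]; linarith
  have ha0 : 0 ≤ a := by rw [ha]; linarith
  have hDδ : 19 / D ≤ δ / 4 := by
    rw [div_le_div_iff₀ hD0 (by norm_num)]
    have h1 : 76 / δ ≤ D := by rw [hD]; linarith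
    rw [div_le_iff₀ hδ] at h1
    linarith
  have hEδ : 1 / (E : ℝ) ≤ δ / 4 := by
    rw [div_le_div_iff₀ hE0 (by norm_num)]
    have h1 : 4 / δ ≤ (E : ℝ) := by
      have : (e : ℝ) ≤ E := by exact_mod_cast (show e ≤ E by omega)
      have h4 : (0 : ℝ) ≤ 4 ^ 18 := by positivity
      linarith
    rw [div_le_iff₀ hδ] at h1
    linarith
  have hreal := real_ineq δ a D E F K s L n N (Real.log N) hδ ha0 hD1 hER hF0
    (by rw [ha, hD]; ring) hDδ hEδ hK hs1 hL1 hnR hsK hLK hN1 hN2 hN3 hlN hLD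
  have hup := log_fact_upper n hn1
  have hfinal : (1 - δ) * Real.log (n.factorial : ℝ) ≤ a * Real.log c := by
    have h1 : (1 - δ) * Real.log (n.factorial : ℝ) ≤ (1 - δ) * (n * L) :=
      mul_le_mul_of_nonneg_left hup (by linarith)
    have h2 : a * ((1 - 1 / (E : ℝ)) * ((N : ℝ) * Real.log N) - N - F) ≤ a * Real.log c :=
      mul_le_mul_of_nonneg_left hT ha0
    nlinarith
  have hnf : (0 : ℝ) < n.factorial := by exact_mod_cast n.factorial_pos
  rw [← Real.log_le_log_iff (Real.rpow_pos_of_pos hnf _) (by positivity), Real.log_rpow hnf,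
    Real.log_pow]
  have : ((m - 9 : ℕ) : ℝ) = a := by
    rw [ha, Nat.cast_sub (by omega)]
    norm_num
  rw [this]
  exact hfinal

end Pool.Agent.Helper58.CX
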